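import Pool.Agent.H.MP_39b2af_an.Seq

namespace Pool.Agent.H.MP_39b2af_an

open Filter Topology TopologicalSpace
open scoped ENNReal

def win (q : ℝ) (A : Set ℕ) (n : ℕ) : Set ℕ := A ∩ {j : ℕ | 1 ≤ j ∧ (j : ℝ) ≤ (n : ℝ) ^ q}

lemma win_fin (q : ℝ) (A : Set ℕ) (n : ℕ) : (win q A n).Finite :=
  (Set.finite_Iic ⌊(n : ℝ) ^ q⌋₊).subset fun _ hj => Nat.le_floor hj.2.2

lemma dens_zero (q : ℝ) (A : Set ℕ) (n b : ℕ → ℕ) (hn : ∀ k, k < n k)
    (hb : ∀ k, (k + 1) * b k ≤ n k) (h : ∀ᶠ k in atTop, win q A (n k) ⊆ Set.Iio (b k)) :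
    lowerDens q A = 0 := by
  have key : ∀ K : ℕ, lowerDens q A ≤ (K : ℝ≥0∞)⁻¹ := by
    intro K
    apply liminf_le_of_frequently_le'
    have hn' : Tendsto n atTop atTop := tendsto_atTop_mono (fun k => (hn k).le) tendsto_id
    refine hn'.frequently (Eventually.frequently ?_)
    filter_upwards [h, eventually_ge_atTop K] with k hk hK
    have h1 : (win q A (n k)).ncard ≤ b k := by
      simpa using Set.ncard_le_ncard hk (Set.finite_Iio _)
    have h2 : K * (win q A (n k)).ncard ≤ n k :=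
      le_trans (Nat.mul_le_mul (by omega) h1) (hb k)
    change ((win q A (n k)).ncard : ℝ≥0∞) / (n k) ≤ _
    apply ENNReal.div_le_of_le_mul'
    rw [← div_eq_mul_inv]
    rcases Nat.eq_zero_or_pos K with rfl | hK0
    · have : (n k : ℝ≥0∞) ≠ 0 := by exact_mod_cast (by have := hn k; omega : n k ≠ 0)
      simp [ENNReal.div_zero this]
    · rw [ENNReal.le_div_iff_mul_le (Or.inl (by exact_mod_cast hK0.ne')) (Or.inl (by simp)),
        mul_comm]
      exact_mod_cast h2
  exact le_antisymm (ge_of_tendsto' ENNReal.tendsto_inv_nat_nhds_zero key) (by simp)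

lemma dens_pos (q : ℝ) (A : Set ℕ) (h : ∀ᶠ n in atTop, n ≤ 2 * (win q A n).ncard) :
    lowerDens q A ≠ 0 := by
  have : (2 : ℝ≥0∞)⁻¹ ≤ lowerDens q A := by
    apply le_liminf_of_le
    · isBoundedDefault
    filter_upwards [h, eventually_gt_atTop 0] with n hn hn0
    change _ ≤ ((win q A n).ncard : ℝ≥0∞) / n
    rw [ENNReal.le_div_iff_mul_le (Or.inl (by exact_mod_cast hn0.ne')) (Or.inl (by simp)),
      ← ENNReal.div_eq_inv_mul, ENNReal.div_le_iff' (by norm_num) (by norm_num)]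
    exact_mod_cast hn
  intro h0
  rw [h0] at this
  simp at this

variable {𝕜 X : Type} [RCLike 𝕜] [NormedAddCommGroup X] [NormedSpace 𝕜 X]

theorem abs_main {lam : ℝ} (h0 : 0 < lam) (h1 : lam ≤ 1) (T : X →L[𝕜] X) (F : Submodule 𝕜 X)
    (hFd : Dense (F : Set X)) (hFs : IsSeparable (F : Set X))
    (hF0 : ∀ f ∈ F, ∃ j0, ∀ j ≥ j0, (T ^ j) f = 0)
    (hT : ∀ k j, M (1 / lam) k ≤ j → j ≤ P (1 / lam) k → ∀ x, ‖(T ^ j) x‖ ≤ 3 * ‖x‖) (v : X)
    (hv : ∀ k j, M (1 / lam) k + j < M (1 / lam) (k + 1) →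
      Real.exp (j / P (1 / lam) k) / 2 ^ k ≤ ‖(T ^ j) v‖) : ExactDC lam T := by
  set q := 1 / lam with hqdef
  have hq : 1 ≤ q := by rw [hqdef, le_div_iff₀ h0]; linarith
  have small : ∀ (x : X) (ε : ℝ), 0 < ε → ∃ k0, ∀ k ≥ k0, ∀ j, M q k ≤ j → j ≤ P q k →
      ‖(T ^ j) x‖ < ε := by
    intro x ε hε
    obtain ⟨f, hf, hfF⟩ := hFd.exists_dist_lt x (by positivity : 0 < ε / 3)
    obtain ⟨j0, hj0⟩ := hF0 f hf
    refine ⟨j0, fun k hk j hj hj' => ?_⟩
    have : (T ^ j) x = (T ^ j) (x - f) := by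
      rw [map_sub, hj0 j (le_trans hk ((M_mono.id_le k).trans hj)), sub_zero]
    rw [this]
    have h2 := hT k j hj hj' (x - f)
    rw [dist_eq_norm] at hfF
    linarith
  have hA : ∀ (z : X) (ε : ℝ), 0 < ε → lowerDens q {j | ε < ‖(T ^ j) z‖} = 0 := by
    intro z ε hε
    obtain ⟨k0, hk0⟩ := small z ε hε
    refine dens_zero q _ (fun k => (k + 1) * (M q k + 1)) (M q) (fun k => by nlinarith)
      (fun k => by nlinarith) ?_
    filter_upwards [eventually_ge_atTop k0] with k hk j hj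
    by_contra hn
    have h2 : j ≤ P q k := by exact_mod_cast hj.2.2.trans (P_ge1 k)
    exact absurd (hk0 k hk j (not_lt.1 hn) h2) (not_lt.2 (le_of_lt hj.1))
  have big : ∀ f ∈ F, ∀ c : 𝕜, c ≠ 0 → ∀ᶠ k in atTop, ∀ j, (k + 1) * P q k ≤ j →
      M q k + j < M q (k + 1) → 1 ≤ ‖(T ^ j) (f + c • v)‖ := by
    intro f hf c hc
    obtain ⟨j0, hj0⟩ := hF0 f hf
    have hc' : 0 < ‖c‖ := norm_pos_iff.2 hc
    filter_upwards [eventually_ge_atTop j0, (tendsto_pow_atTop_atTop_of_one_lt
      (by norm_num : (1:ℝ) < 5 / 4)).eventually_ge_atTop (1 / ‖c‖)] with k hk hk2 j hj hj'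
    have hP := P_pos hq k
    rw [map_add, hj0 j (by nlinarith), zero_add, map_smul, norm_smul]
    have e1 : (k : ℝ) ≤ j / P q k := by
      rw [le_div_iff₀ (by exact_mod_cast hP)]
      exact_mod_cast (by nlinarith : k * P q k ≤ j)
    have e2 : (5 / 2 : ℝ) ^ k ≤ Real.exp (j / P q k) := by
      refine le_trans ?_ (Real.exp_le_exp.2 e1)
      rw [← mul_one (k : ℝ), Real.exp_nat_mul]
      exact pow_le_pow_left₀ (by norm_num) (by have := Real.exp_one_gt_d9; linarith) k
    have e3 : (5 / 4 : ℝ) ^ k ≤ ‖(T ^ j) v‖ := by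
      refine le_trans ?_ (hv k j hj')
      rw [le_div_iff₀ (by positivity), ← mul_pow]
      norm_num
      exact e2
    rw [div_le_iff₀ hc'] at hk2
    nlinarith
  have hB : ∀ f ∈ F, ∀ c : 𝕜, c ≠ 0 → lowerDens q {j | ‖(T ^ j) (f + c • v)‖ < 1} = 0 := by
    intro f hf c hc
    refine dens_zero q _ (fun k => (k + 1) ^ 2 * P q k) (fun k => (k + 1) * P q k)
      (fun k => by have := P_pos hq k; nlinarith) (fun k => by nlinarith) ?_
    filter_upwards [big f hf c hc] with k hk j hj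
    by_contra hn
    have h2 : j ≤ ⌈((((k + 1) ^ 2 * P q k : ℕ) : ℝ)) ^ q⌉₊ := by
      exact_mod_cast hj.2.2.trans (Nat.le_ceil _)
    exact absurd hj.1 (not_lt.2 (hk j (not_lt.1 hn) (by rw [M_succ]; omega)))
  have hne : ∀ f ∈ F, ∀ c : 𝕜, c ≠ 0 → f + c • v ≠ 0 := by
    intro f hf c hc h
    obtain ⟨k, hk⟩ := (big f hf c hc).exists
    have h3 : (k + 1) ^ 2 * P q k ≤ ⌈((((k + 1) ^ 2 * P q k : ℕ) : ℝ)) ^ q⌉₊ := by
      exact_mod_cast (le_rpow hq _).trans (Nat.le_ceil _)
    have := hk ((k + 1) ^ 2 * P q k) (Nat.mul_le_mul_right _ (by nlinarith)) (by rw [M_succ]; omega)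
    rw [h] at this
    norm_num at this
  constructor
  · obtain ⟨D, hDF, hDc, hD⟩ := hFs.exists_countable_dense_subset
    have hDne : D.Nonempty := closure_nonempty_iff.1 ⟨0, hD F.zero_mem⟩
    obtain ⟨d, rfl⟩ := hDc.exists_eq_range hDne
    let c : ℝ ⊕ ℕ → ℝ := Sum.elim (fun t => Real.exp t + 1) (fun m => 1 / ((m : ℝ) + 1))
    let h : ℝ ⊕ ℕ → X := Sum.elim (fun _ => 0) (fun m => d m.unpair.1)
    have hh : ∀ i, h i ∈ F := by
      rintro (t | m)
      · exact F.zero_mem
      · exact hDF ⟨_, rfl⟩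
    have hc : Function.Injective c := by
      have e : ∀ (t : ℝ) (m : ℕ), 1 / ((m : ℝ) + 1) < Real.exp t + 1 := by
        intro t m
        have : 1 / ((m : ℝ) + 1) ≤ 1 := by
          rw [div_le_one (by positivity)]; linarith [Nat.cast_nonneg (α := ℝ) m]
        linarith [Real.exp_pos t]
      rintro (a | a) (b | b) hab <;> simp only [c, Sum.elim_inl, Sum.elim_inr] at hab
      · simpa using hab
      · exact absurd hab (e _ _).ne'
      · exact absurd hab (e _ _).ne
      · rw [div_eq_div_iff (by positivity) (by positivity)] at hab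
        have : (a : ℝ) = b := by linarith
        rw [Nat.cast_injective this]
    let s : ℝ ⊕ ℕ → X := fun i => h i + ((c i : ℝ) : 𝕜) • v
    have hs : ∀ a b, s a - s b = (h a - h b) + (((c a - c b : ℝ)) : 𝕜) • v := by
      intro a b; simp only [s]; push_cast; module
    have hcab : ∀ a b, a ≠ b → (((c a - c b : ℝ)) : 𝕜) ≠ 0 := by
      intro a b hab
      exact_mod_cast sub_ne_zero.2 (hc.ne hab)
    have hsinj : Function.Injective s := by
      intro a b hab
      by_contra hn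
      apply hne _ (F.sub_mem (hh a) (hh b)) _ (hcab a b hn)
      rw [← hs, hab, sub_self]
    refine ⟨Set.range s, ?_, ?_, 1, one_pos, ?_⟩
    · have : Set.range d ⊆ closure (Set.range s) := by
        rintro _ ⟨a, rfl⟩
        have t1 : Tendsto (fun b : ℕ => 1 / ((Nat.pair a b : ℝ) + 1)) atTop (𝓝 0) :=
          tendsto_one_div_add_atTop_nhds_zero_nat.comp
            (tendsto_atTop_mono (fun b => Nat.right_le_pair a b) tendsto_id)
        have t2 := ((RCLike.continuous_ofReal (K := 𝕜)).tendsto 0).comp t1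
        have t3 := (t2.smul_const v).const_add (d a)
        simp only [RCLike.ofReal_zero, zero_smul, add_zero] at t3
        refine mem_closure_of_tendsto t3 (Eventually.of_forall fun b => ⟨Sum.inr (Nat.pair a b), ?_⟩)
        simp [s, h, c]
      intro x
      exact closure_minimal (hD.trans (closure_minimal this isClosed_closure)) isClosed_closure
        (hFd x)
    · intro hcount
      have : Countable (ℝ ⊕ ℕ) := by
        have := hcount.to_subtype
        exact (Set.rangeFactorization_injective.2 hsinj).countable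
      exact not_countable (Sum.inl_injective.countable (α := ℝ) (β := ℝ ⊕ ℕ))
    · rintro _ ⟨a, rfl⟩ _ ⟨b, rfl⟩ hab
      simp only [← map_sub]
      refine ⟨?_, hA _⟩
      rw [hs]
      exact hB _ (F.sub_mem (hh a) (hh b)) _ (hcab a b fun h => hab (by rw [h]))
  · rintro lam' hl0 hl1 ⟨S, hS, σ, hσ, hS2⟩
    have hnt : S.Nontrivial := by
      by_contra hn
      exact hS (Set.not_nontrivial_iff.1 hn).countable
    obtain ⟨x, hx, y, hy, hxy⟩ := hnt
    refine dens_pos _ _ ?_ (hS2 x hx y hy hxy).1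
    simp only [← map_sub]
    set q' := 1 / lam' with hq'def
    have hqq : q < q' := one_div_lt_one_div_of_lt hl0 hl1
    obtain ⟨k0, hk0⟩ := small (x - y) σ hσ
    obtain ⟨k1, hk1⟩ := eventually_atTop.1 (M_le_pow hq hqq)
    filter_upwards [eventually_ge_atTop (2 * M q (k0 + k1 + 1))] with n hn
    set N := ⌊(n : ℝ) ^ q'⌋₊ with hN
    have hnN : n ≤ N := Nat.le_floor (le_rpow (hq.trans hqq.le) n)
    obtain ⟨k, hk, hk'⟩ := exists_blk (fun k => 2 * M q k)
      (fun a b hab => by have := M_mono (q := q) hab; simp only; omega) (by simp [M]) N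
    have hkk : k0 + k1 + 1 ≤ k := Nat.lt_succ_iff.1
      (M_mono (q := q).lt_iff_lt.1 (by omega : M q (k0 + k1 + 1) < M q (k + 1)))
    have hnP : n ≤ P q k := by
      have a1 : (n : ℝ) ^ q' < N + 1 := Nat.lt_floor_add_one _
      have a2 : (N + 1 : ℝ) ≤ 2 * M q (k + 1) := by exact_mod_cast hk'
      have a3 := hk1 k (by omega)
      by_contra hlt
      have a4 : (P q k : ℝ) ^ q' ≤ (n : ℝ) ^ q' :=
        Real.rpow_le_rpow (by positivity) (by exact_mod_cast (not_le.1 hlt).le) (by linarith)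
      linarith
    have hP2 : 2 * M q k ≤ P q k := by
      have := P_ge hq k
      nlinarith
    have hsub : Set.Ioc (M q k) (min N (P q k)) ⊆ win q' {j | ‖(T ^ j) (x - y)‖ < σ} n := by
      intro j hj
      have b1 := hj.1
      have b2 := le_min_iff.1 hj.2
      refine ⟨hk0 k (by omega) j b1.le b2.2, by omega, ?_⟩
      exact (Nat.cast_le.2 b2.1).trans (Nat.floor_le (by positivity))
    have := Set.ncard_le_ncard hsub (win_fin _ _ _)
    rw [Set.ncard_Ioc_nat] at this
    omega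

end Pool.Agent.H.MP_39b2af_an
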