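import Mathlib

namespace Pool.Agent.H.MP_39b2af_an

open Filter
open scoped ENNReal

/-- Lower `q`-density `liminf |A ∩ [1, n^q]| / n`, valued in `[0, ∞]`. -/
noncomputable def lowerDens (q : ℝ) (A : Set ℕ) : ℝ≥0∞ :=
  liminf (fun n : ℕ => ((A ∩ {j : ℕ | 1 ≤ j ∧ (j : ℝ) ≤ (n : ℝ) ^ q}).ncard : ℝ≥0∞) / n) atTop

/-- `S` is an uncountable set witnessing `lam`-distributional chaos of `T`. -/
def Scrambled {𝕜 X : Type} [RCLike 𝕜] [NormedAddCommGroup X] [NormedSpace 𝕜 X] (lam : ℝ)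
    (T : X →L[𝕜] X) (S : Set X) : Prop :=
  ¬ S.Countable ∧ ∃ σ : ℝ, 0 < σ ∧ ∀ x ∈ S, ∀ y ∈ S, x ≠ y →
    lowerDens (1 / lam) {j | ‖(T ^ j) x - (T ^ j) y‖ < σ} = 0 ∧
    ∀ ε : ℝ, 0 < ε → lowerDens (1 / lam) {j | ε < ‖(T ^ j) x - (T ^ j) y‖} = 0

/-- `T` is densely `lam`-distributionally chaotic and not `lam'`-distributionally chaotic
for any `lam' ∈ (0, lam)`. -/
def ExactDC {𝕜 X : Type} [RCLike 𝕜] [NormedAddCommGroup X] [NormedSpace 𝕜 X] (lam : ℝ)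
    (T : X →L[𝕜] X) : Prop :=
  (∃ S : Set X, Dense S ∧ Scrambled lam T S) ∧
    ∀ lam' : ℝ, 0 < lam' → lam' < lam → ¬ ∃ S : Set X, Scrambled lam' T S

end Pool.Agent.H.MP_39b2af_an
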