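import Pool.Agent.H.MP_39b2af_an.Defs

namespace Pool.Agent.H.MP_39b2af_an

open Filter

noncomputable def PP (q : ℝ) (k m : ℕ) : ℕ :=
  ⌈((((k + 1) * (m + 1) : ℕ) : ℝ)) ^ q⌉₊ + ⌈(8 * (((k + 1) ^ 2 : ℕ) : ℝ) ^ q) ^ (k + 1)⌉₊

noncomputable def M (q : ℝ) : ℕ → ℕ
  | 0 => 0
  | k + 1 => M q k + ⌈((((k + 1) ^ 2 * PP q k (M q k) : ℕ) : ℝ)) ^ q⌉₊ + 1

noncomputable def P (q : ℝ) (k : ℕ) : ℕ := PP q k (M q k)

variable {q : ℝ}

lemma le_rpow (hq : 1 ≤ q) (n : ℕ) : (n : ℝ) ≤ (n : ℝ) ^ q := by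
  rcases Nat.eq_zero_or_pos n with rfl | hn
  · simp only [Nat.cast_zero]; positivity
  · exact Real.self_le_rpow_of_one_le (by exact_mod_cast hn) hq

lemma P_ge1 (k : ℕ) : ((((k + 1) * (M q k + 1) : ℕ) : ℝ)) ^ q ≤ P q k := by
  refine (Nat.le_ceil _).trans ?_
  exact_mod_cast Nat.le_add_right _ _

lemma P_ge2 (k : ℕ) : (8 * (((k + 1) ^ 2 : ℕ) : ℝ) ^ q) ^ (k + 1) ≤ P q k := by
  refine (Nat.le_ceil _).trans ?_
  exact_mod_cast Nat.le_add_left _ _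

lemma P_ge (hq : 1 ≤ q) (k : ℕ) : (k + 1) * (M q k + 1) ≤ P q k := by
  exact_mod_cast (le_rpow hq _).trans (P_ge1 k)

lemma P_pos (hq : 1 ≤ q) (k : ℕ) : 0 < P q k := lt_of_lt_of_le (by positivity) (P_ge hq k)

lemma M_succ (k : ℕ) :
    M q (k + 1) = M q k + ⌈((((k + 1) ^ 2 * P q k : ℕ) : ℝ)) ^ q⌉₊ + 1 := rfl

lemma M_mono : StrictMono (M q) := strictMono_nat_of_lt_succ fun k => by rw [M_succ]; omega

lemma P_le_M (hq : 1 ≤ q) (k : ℕ) : P q k ≤ M q (k + 1) := by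
  have h1 : (k + 1) ^ 2 * P q k ≤ ⌈((((k + 1) ^ 2 * P q k : ℕ) : ℝ)) ^ q⌉₊ := by
    exact_mod_cast (le_rpow hq _).trans (Nat.le_ceil _)
  have h2 : P q k ≤ (k + 1) ^ 2 * P q k := Nat.le_mul_of_pos_left _ (by positivity)
  rw [M_succ]; omega

lemma M_le_P (hq : 1 ≤ q) (k : ℕ) : M q k ≤ P q k := by
  have := P_ge hq k
  nlinarith

lemma P_mono (hq : 1 ≤ q) : Monotone (P q) :=
  monotone_nat_of_le_succ fun k => (P_le_M hq k).trans (M_le_P hq _)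

lemma M_le_pow (hq : 1 ≤ q) {q' : ℝ} (hq' : q < q') :
    ∀ᶠ k in atTop, (2 * M q (k + 1) : ℝ) ≤ (P q k : ℝ) ^ q' := by
  have hδ : 0 < q' - q := sub_pos.2 hq'
  filter_upwards [(tendsto_natCast_atTop_atTop (R := ℝ)).eventually_ge_atTop (1 / (q' - q))]
    with k hk
  have hP : (1 : ℝ) ≤ P q k := by exact_mod_cast P_pos hq k
  set a : ℝ := (((k + 1) ^ 2 : ℕ) : ℝ) ^ q with ha
  have ha1 : 1 ≤ a := Real.one_le_rpow (by exact_mod_cast Nat.one_le_iff_ne_zero.2 (by positivity))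
    (by linarith)
  have hX : ((((k + 1) ^ 2 * P q k : ℕ) : ℝ)) ^ q = a * (P q k : ℝ) ^ q := by
    rw [Nat.cast_mul, Real.mul_rpow (by positivity) (by positivity)]
  have h1 : (P q k : ℝ) ≤ (P q k : ℝ) ^ q := le_rpow hq _
  have h2 : (M q k : ℝ) ≤ P q k := by exact_mod_cast M_le_P hq k
  have h3 : (M q (k + 1) : ℝ) ≤ 4 * (a * (P q k : ℝ) ^ q) := by
    rw [M_succ]; push_cast
    have := (Nat.ceil_lt_add_one (R := ℝ) (a := ((((k + 1) ^ 2 * P q k : ℕ) : ℝ)) ^ q)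
      (by positivity)).le
    rw [hX] at this
    push_cast at hX
    rw [hX]
    nlinarith
  have h4 : 8 * a ≤ (P q k : ℝ) ^ (q' - q) := by
    have h5 : ((8 * a) ^ (k + 1)) ^ (q' - q) ≤ (P q k : ℝ) ^ (q' - q) :=
      Real.rpow_le_rpow (by positivity) (P_ge2 k) hδ.le
    refine le_trans ?_ h5
    rw [← Real.rpow_natCast, ← Real.rpow_mul (by positivity)]
    apply Real.self_le_rpow_of_one_le (by linarith)
    rw [div_le_iff₀ hδ] at hk
    push_cast; nlinarith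
  have h6 : (P q k : ℝ) ^ q' = (P q k : ℝ) ^ (q' - q) * (P q k : ℝ) ^ q := by
    rw [← Real.rpow_add (by linarith)]; ring_nf
  rw [h6]
  have := mul_le_mul_of_nonneg_right h4 (by positivity : 0 ≤ (P q k : ℝ) ^ q)
  linarith

lemma exists_blk (f : ℕ → ℕ) (hf : StrictMono f) (h0 : f 0 = 0) (n : ℕ) :
    ∃ k, f k ≤ n ∧ n < f (k + 1) := by
  classical
  have hex : ∃ k, n < f (k + 1) := ⟨n, lt_of_lt_of_le (Nat.lt_succ_self n) (hf.id_le _)⟩
  refine ⟨Nat.find hex, ?_, Nat.find_spec hex⟩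
  rcases h : Nat.find hex with _ | k
  · simp [h0]
  · exact not_lt.1 (Nat.find_min hex (by omega))

noncomputable def blk (q : ℝ) (n : ℕ) : ℕ := (exists_blk (M q) M_mono rfl n).choose

lemma blk_le (n : ℕ) : M q (blk q n) ≤ n := (exists_blk (M q) M_mono rfl n).choose_spec.1
lemma lt_blk (n : ℕ) : n < M q (blk q n + 1) := (exists_blk (M q) M_mono rfl n).choose_spec.2

lemma le_blk {k n : ℕ} (h : M q k ≤ n) : k ≤ blk q n :=
  Nat.lt_succ_iff.1 (M_mono.lt_iff_lt.1 (lt_of_le_of_lt h (lt_blk n)))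

lemma blk_eq {k n : ℕ} (h : M q k ≤ n) (h' : n < M q (k + 1)) : blk q n = k :=
  le_antisymm (Nat.lt_succ_iff.1 (M_mono.lt_iff_lt.1 (lt_of_le_of_lt (blk_le n) h'))) (le_blk h)

noncomputable def g (q : ℝ) (n : ℕ) : ℝ := ((n : ℝ) - M q (blk q n)) / P q (blk q n)

lemma g_nonneg (n : ℕ) : 0 ≤ g q n :=
  div_nonneg (sub_nonneg.2 (by exact_mod_cast blk_le n)) (Nat.cast_nonneg _)

lemma g_sub (hq : 1 ≤ q) (n j : ℕ) : g q (n + j) - g q n ≤ j / P q (blk q (n + j)) := by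
  have hP : (0 : ℝ) < P q (blk q (n + j)) := by exact_mod_cast P_pos hq _
  by_cases h : M q (blk q (n + j)) ≤ n
  · have : blk q n = blk q (n + j) := blk_eq h (lt_of_le_of_lt (Nat.le_add_right _ _) (lt_blk _))
    simp only [g, this]
    apply le_of_eq; push_cast; ring
  · have h1 : (n : ℝ) ≤ M q (blk q (n + j)) := by exact_mod_cast (not_le.1 h).le
    have h2 : g q (n + j) ≤ j / P q (blk q (n + j)) := by
      apply div_le_div_of_nonneg_right _ hP.le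
      push_cast; linarith
    linarith [g_nonneg (q := q) n]

lemma g_sub_le (hq : 1 ≤ q) {k j : ℕ} (h1 : M q k ≤ j) (h2 : j ≤ P q k) (n : ℕ) :
    g q (n + j) - g q n ≤ 1 := by
  refine (g_sub hq n j).trans ?_
  have hP : (0 : ℝ) < P q (blk q (n + j)) := by exact_mod_cast P_pos hq _
  rw [div_le_one hP]
  exact_mod_cast h2.trans (P_mono hq (le_blk (by omega)))

lemma g_top {k n j : ℕ} (h1 : M q k ≤ n) (h2 : n + j < M q (k + 1)) :
    g q (n + j) - g q n = j / P q k := by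
  simp only [g, blk_eq h1 (by omega : n < M q (k + 1)), blk_eq (by omega : M q k ≤ n + j) h2]
  push_cast; ring

end Pool.Agent.H.MP_39b2af_an
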