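import Pool.Agent.H.MP_39b2af_an.Abs

namespace Pool.Agent.H.MP_39b2af_an

open Filter Topology TopologicalSpace

/-- the weights -/
noncomputable def wt (lam : ℝ) (n : ℕ) : ℝ := Real.exp (g (1 / lam) (n + 1) - g (1 / lam) n)

lemma wt_le {lam : ℝ} (h0 : 0 < lam) (h1 : lam ≤ 1) (n : ℕ) : wt lam n ≤ 3 := by
  have hq : 1 ≤ 1 / lam := by rw [le_div_iff₀ h0]; linarith
  have := g_sub_le hq (k := 0) (j := 1) (by simp [M]) (P_pos hq 0) n
  have h2 := Real.exp_le_exp.2 this
  have := Real.exp_one_lt_d9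
  rw [wt]; linarith

variable {𝕜 X : Type} [RCLike 𝕜] [NormedAddCommGroup X] [NormedSpace 𝕜 X] [CompleteSpace X]

theorem sp_main {lam : ℝ} (h0 : 0 < lam) (h1 : lam ≤ 1) (π : X →ₗ[𝕜] (ℕ → 𝕜))
    (hinj : Function.Injective π) (hle : ∀ x n, ‖π x n‖ ≤ ‖x‖)
    (hdom : ∀ (x : X) (y : ℕ → 𝕜) (C : ℝ) (j : ℕ), 0 ≤ C → (∀ n, ‖y n‖ ≤ C * ‖π x (n + j)‖) →
      ∃ z, π z = y ∧ ‖z‖ ≤ C * ‖x‖)
    (e : ℕ → X) (he : ∀ n, π (e n) = Pi.single n 1) (hen : ∀ n, ‖e n‖ ≤ 1)
    (hd : Dense (Submodule.span 𝕜 (Set.range e) : Set X)) :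
    ∃ T : X →L[𝕜] X, (∀ x n, π (T x) n = (wt lam n : 𝕜) * π x (n + 1)) ∧ ExactDC lam T := by
  have hq : 1 ≤ 1 / lam := by rw [le_div_iff₀ h0]; linarith
  have hw : ∀ x : X, ∃ z, π z = (fun n => (wt lam n : 𝕜) * π x (n + 1)) ∧ ‖z‖ ≤ 3 * ‖x‖ := by
    intro x
    refine hdom x _ 3 1 (by norm_num) fun n => ?_
    rw [norm_mul, RCLike.norm_ofReal, abs_of_pos (show 0 < wt lam n from Real.exp_pos _)]
    exact mul_le_mul_of_nonneg_right (wt_le h0 h1 n) (norm_nonneg _)
  choose t ht htn using hw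
  let L : X →ₗ[𝕜] X :=
    { toFun := t
      map_add' := by intro a b; apply hinj; ext n; simp [ht, mul_add]
      map_smul' := by intro a b; apply hinj; ext n; simp [ht]; ring }
  let T : X →L[𝕜] X := L.mkContinuous 3 htn
  have hT : ∀ x n, π (T x) n = (wt lam n : 𝕜) * π x (n + 1) := fun x n => congrFun (ht x) n
  have hTj : ∀ j x n, π ((T ^ j) x) n =
      (Real.exp (g (1 / lam) (n + j) - g (1 / lam) n) : ℝ) * π x (n + j) := by
    intro j
    induction j with
    | zero => simp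
    | succ j ih =>
      intro x n
      rw [pow_succ', mul_apply_eq_comp, hT, ih, wt, ← mul_assoc, ← RCLike.ofReal_mul,
        ← Real.exp_add, add_assoc, add_comm 1 j]
      congr 3; ring
  have hsum : Summable fun k : ℕ => (((1 / 2 : ℝ) ^ k : ℝ) : 𝕜) • e (M (1 / lam) (k + 1) - 1) := by
    refine Summable.of_norm_bounded summable_geometric_two fun k => ?_
    rw [norm_smul, RCLike.norm_ofReal, abs_of_pos (by positivity)]
    exact mul_le_of_le_one_right (by positivity) (hen _)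
  refine ⟨T, hT, abs_main h0 h1 T _ hd (IsSeparable.span (Set.countable_range e).isSeparable) ?_ ?_
    (∑' k : ℕ, (((1 / 2 : ℝ) ^ k : ℝ) : 𝕜) • e (M (1 / lam) (k + 1) - 1)) ?_⟩
  · intro f hf
    induction hf using Submodule.span_induction with
    | mem x hx =>
      obtain ⟨m, rfl⟩ := hx
      refine ⟨m + 1, fun j hj => hinj ?_⟩
      ext n
      rw [hTj, he, Pi.single_eq_of_ne (by omega)]; simp
    | zero => exact ⟨0, fun j _ => map_zero _⟩
    | add x y _ _ hx hy =>
      obtain ⟨a, ha⟩ := hx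
      obtain ⟨b, hb⟩ := hy
      exact ⟨a + b, fun j hj => by rw [map_add, ha j (by omega), hb j (by omega), add_zero]⟩
    | smul c x _ hx =>
      obtain ⟨a, ha⟩ := hx
      exact ⟨a, fun j hj => by rw [map_smul, ha j hj, smul_zero]⟩
  · intro k j hj hj' x
    obtain ⟨z, hz, hzn⟩ := hdom x (π ((T ^ j) x)) 3 j (by norm_num) fun n => by
      rw [hTj, norm_mul, RCLike.norm_ofReal, abs_of_pos (Real.exp_pos _)]
      refine mul_le_mul_of_nonneg_right ?_ (norm_nonneg _)
      have h2 := Real.exp_le_exp.2 (g_sub_le hq hj hj' n)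
      have := Real.exp_one_lt_d9
      linarith
    rwa [hinj hz] at hzn
  · intro k j hj
    refine le_trans ?_ (hle _ (M (1 / lam) (k + 1) - 1 - j))
    rw [hTj, g_top (k := k) (by omega) (by omega),
      show M (1 / lam) (k + 1) - 1 - j + j = M (1 / lam) (k + 1) - 1 by omega]
    let c : X →L[𝕜] 𝕜 := ((LinearMap.proj (M (1 / lam) (k + 1) - 1)).comp π).mkContinuous 1
      (fun x => by simpa using hle x _)
    have h2 : π (∑' k : ℕ, (((1 / 2 : ℝ) ^ k : ℝ) : 𝕜) • e (M (1 / lam) (k + 1) - 1))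
        (M (1 / lam) (k + 1) - 1) = (((1 / 2 : ℝ) ^ k : ℝ) : 𝕜) := by
      change c _ = _
      rw [c.map_tsum hsum, tsum_eq_single k]
      · simp [c, he]
      · intro l hl
        have : M (1 / lam) (k + 1) - 1 ≠ M (1 / lam) (l + 1) - 1 := by
          intro h
          have a1 := M_mono (q := 1 / lam) (Nat.succ_pos k)
          have a2 := M_mono (q := 1 / lam) (Nat.succ_pos l)
          have : M (1 / lam) (k + 1) = M (1 / lam) (l + 1) := by
            simp only [Nat.succ_eq_add_one] at a1 a2; omega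
          exact hl (by have := M_mono.injective this; omega)
        simp only [c, map_smul, LinearMap.mkContinuous_apply, LinearMap.comp_apply, he,
          LinearMap.proj_apply, Pi.single_eq_of_ne this, smul_zero]
    rw [h2, norm_mul, RCLike.norm_ofReal, RCLike.norm_ofReal, abs_of_pos (Real.exp_pos _),
      abs_of_pos (by positivity), one_div_pow, mul_one_div]

end Pool.Agent.H.MP_39b2af_an
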